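import Pool.Agent.W312.WT.Stm

/-!
# Truncation of a chain
-/

set_option autoImplicit false

namespace Pool.Agent.W589.WT

open Pool.Agent.W312.WT

theorem trn_aux (p : ℕ) (S : Set ℤ) (hS : Lat p S) : ∀ (ts : List ℕ) (s a a' : ℕ),
    (∀ t ∈ ts, (t : ℤ) ∈ S) → ChnW p s a ts → a' ≤ a → (a' : ℤ) ∈ S → s * p ≤ 2 * a' →
    (a' = a ∨ (s + 1) * p ≤ 2 * a') →
    ChnT p s a' (trunc p a' ts) ∧ (∀ t ∈ trunc p a' ts, (t : ℤ) ∈ S) ∧
      List.Forall₂ (· ≤ ·) (trunc p a' ts) ts := by
  intro ts
  induction ts with
  | nil =>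
    intro s a a' _ _ _ _ _ _
    exact ⟨trivial, by simp [trunc], List.Forall₂.nil⟩
  | cons t l ih =>
    intro s a a' hts hch hle hS' hs hor
    obtain ⟨h1, h2, h3⟩ := hch
    have hapS : ((a' + p : ℕ) : ℤ) ∈ S := by
      have h4 := hS.refl 1 _ (hS.refl 0 _ hS')
      have h5 : (1 : ℤ) * p - (0 * p - (a' : ℤ)) = ((a' + p : ℕ) : ℤ) := by
        push_cast
        ring
      rwa [h5] at h4
    have e1 : (s + 1) * p = s * p + p := by ring
    have e2 : (s + 1 + 1) * p = s * p + p + p := by ring
    have hm1 : min t (a' + p) ≤ t := min_le_left _ _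
    have hm2 : min t (a' + p) ≤ a' + p := min_le_right _ _
    have hmS : ((min t (a' + p) : ℕ) : ℤ) ∈ S := by
      rcases min_choice t (a' + p) with h | h
      · rw [h]
        exact hts t (by simp)
      · rw [h]
        exact hapS
    have hch' : a' ≤ min t (a' + p) := le_min (hle.trans h1) (Nat.le_add_right _ _)
    have hsum : (s + 1) * p ≤ a' + min t (a' + p) := by
      rcases min_choice t (a' + p) with h | h
      · rw [h]
        rcases hor with h4 | h4
        · rw [h4]
          exact h2
        · omega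
      · rw [h]
        omega
    obtain ⟨h5, h6, h7⟩ := ih (s + 1) t (min t (a' + p)) (fun u hu => hts u (by simp [hu])) h3 hm1
      hmS (by omega) (by
        rcases min_choice t (a' + p) with h | h
        · left
          exact h
        · right
          rw [h]
          rcases hor with h4 | h4
          · omega
          · omega)
    refine ⟨⟨hch', hm2, hsum, h5⟩, ?_, List.Forall₂.cons hm1 h7⟩
    intro u hu
    rw [trunc, List.mem_cons] at hu
    rcases hu with rfl | hu
    · exact hmS
    · exact h6 u hu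

theorem proof_STrn : STrn := by
  intro p S ts hS hts hch
  exact trn_aux p S hS ts 0 0 0 hts hch le_rfl (by exact_mod_cast hS.zero) (by simp)
    (Or.inl rfl)

end Pool.Agent.W589.WT
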